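import Mathlib

namespace Pool.Agent.Results.MP_15e61c_co.FewValues

open Finset

def dx (d : ℕ) : ℕ := if d = 1 ∨ d = 4 then 1 else if d = 5 ∨ d = 6 then 3 else 0
def dy (d : ℕ) : ℕ := if d = 0 ∨ d = 1 then 3 else if d = 2 ∨ d = 5 then 1 else 0
def U : ℕ → ℕ → ℕ
  | 0, _ => 0
  | k + 1, i => dx (i % 7) + 7 * U k (i / 7)
def V : ℕ → ℕ → ℕ
  | 0, _ => 0
  | k + 1, i => dy (i % 7) + 7 * V k (i / 7)
def T : ℕ → Finset ℕ
  | 0 => {0}
  | k + 1 => (({0, 1, 2, 3, 4, 6} : Finset ℕ) ×ˢ T k).image fun z => z.1 + 7 * z.2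

lemma cardT (k : ℕ) : (T k).card ≤ 6 ^ k := by
  induction k with
  | zero => simp [T]
  | succ k ih =>
    refine card_image_le.trans ?_
    rw [card_product, pow_succ, mul_comm (6 ^ k)]
    exact Nat.mul_le_mul (by decide) ih

lemma memT (k : ℕ) : ∀ i j, U k j + V k i ∈ T k := by
  induction k with
  | zero => simp [T, U, V]
  | succ k ih =>
    intro i j
    refine mem_image.2 ⟨(dx (j % 7) + dy (i % 7), U k (j / 7) + V k (i / 7)),
      mem_product.2 ⟨?_, ih _ _⟩, by simp only [U, V]; ring⟩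
    have h : ∀ a < 7, ∀ b < 7, dx a + dy b ∈ ({0, 1, 2, 3, 4, 6} : Finset ℕ) := by decide
    exact h _ (Nat.mod_lt _ (by norm_num)) _ (Nat.mod_lt _ (by norm_num))

lemma inv (k : ℕ) : ∀ i, 2 * U k i + 2 * (7 ^ k * (i / 7 ^ k)) + 7 ^ k = 2 * V k i + 2 * i + 1 ∧
    U k i + V k i < 7 ^ k := by
  induction k with
  | zero => simp [U, V]
  | succ k ih =>
    intro i
    obtain ⟨h1, h2⟩ := ih (i / 7)
    have h : ∀ a < 7, dx a + 3 = dy a + a ∧ dx a + dy a ≤ 6 := by decide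
    obtain ⟨h3, h4⟩ := h _ (Nat.mod_lt i (by norm_num : 0 < 7))
    rw [Nat.div_div_eq_div_mul] at h1
    simp only [U, V]
    rw [pow_succ', mul_assoc 7]
    omega

theorem result (k m : ℕ) : ∃ a : ℕ → ℕ, (∀ i, a i < 7 ^ k) ∧
    ((((range (m * 7 ^ k)) ×ˢ (range (m * 7 ^ k))).filter fun z => z.1 < z.2).image
      fun z => a z.1 + a z.2 + (z.2 - z.1)).card ≤ m * 6 ^ k := by
  refine ⟨fun i => U k i + V k i, fun i => (inv k i).2, ?_⟩
  refine le_trans (card_le_card (t := (range m ×ˢ T k).image fun z => 2 * z.2 + 7 ^ k * z.1) ?_)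
    (card_image_le.trans (by rw [card_product, card_range]; exact Nat.mul_le_mul_left _ (cardT k)))
  intro s hs
  obtain ⟨⟨i, j⟩, hz, rfl⟩ := mem_image.1 hs
  simp only [mem_filter, mem_product, mem_range] at hz
  have h1 := (inv k i).1
  have h2 := (inv k j).1
  have h3 : i / 7 ^ k ≤ j / 7 ^ k := Nat.div_le_div_right hz.2.le
  have h4 : j / 7 ^ k < m := (Nat.div_lt_iff_lt_mul (by positivity)).2 hz.1.2
  have h5 : 7 ^ k * (i / 7 ^ k) ≤ 7 ^ k * (j / 7 ^ k) := Nat.mul_le_mul_left _ h3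
  refine mem_image.2 ⟨(j / 7 ^ k - i / 7 ^ k, U k j + V k i),
    mem_product.2 ⟨mem_range.2 (lt_of_le_of_lt (Nat.sub_le _ _) h4), memT k i j⟩, ?_⟩
  simp only [Nat.mul_sub]
  omega

end Pool.Agent.Results.MP_15e61c_co.FewValues
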